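import Pool.Agent.Helper18.TR.InvLift
import Pool.Agent.Helper92.TR.N3

/-!
# `M ^ U` is finitely generated over `S ^ U`
-/

set_option autoImplicit false

set_option linter.unusedSectionVars false

namespace Pool.Agent.Helper18.TR

open Pool.Agent.Helper66.TR

section Tsq

variable {k S : Type*} {M : Type*} [Field k] [CommRing S] [Algebra k S] [AddCommGroup M]
  [Module k M] [Module S M] [IsScalarTower k S M] [Module Sᵐᵒᵖ M] [IsCentralScalar S M]
  [IsScalarTower k Sᵐᵒᵖ M]

/-- the action on the trivial square zero extension -/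
noncomputable def tsq (σ : Representation k (G k) S) (ρ : Representation k (G k) M) :
    Representation k (G k) (TrivSqZeroExt S M) where
  toFun g :=
    { toFun := fun x => TrivSqZeroExt.inl (σ g x.fst) + TrivSqZeroExt.inr (ρ g x.snd)
      map_add' := by
        intro x y
        ext <;> simp
      map_smul' := by
        intro c x
        ext <;> simp }
  map_one' := by
    refine LinearMap.ext fun x => ?_
    ext <;> simp
  map_mul' g h := by
    refine LinearMap.ext fun x => ?_
    ext <;> simp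

variable (σ : Representation k (G k) S) (ρ : Representation k (G k) M)

lemma tsq_apply (g : G k) (x : TrivSqZeroExt S M) :
    tsq σ ρ g x = TrivSqZeroExt.inl (σ g x.fst) + TrivSqZeroExt.inr (ρ g x.snd) := rfl

lemma tsq_fst (g : G k) (x : TrivSqZeroExt S M) : (tsq σ ρ g x).fst = σ g x.fst := by
  simp [tsq_apply]

lemma tsq_snd (g : G k) (x : TrivSqZeroExt S M) : (tsq σ ρ g x).snd = ρ g x.snd := by
  simp [tsq_apply]

lemma tsq_isMul (hmul : IsMul σ) (hM : IsEquivModule σ ρ) : IsMul (tsq σ ρ) := by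
  intro g x y
  ext
  · rw [TrivSqZeroExt.fst_mul, tsq_fst, tsq_fst, tsq_fst, TrivSqZeroExt.fst_mul, hmul]
  · rw [TrivSqZeroExt.snd_mul, tsq_snd, tsq_snd, tsq_snd, tsq_fst, tsq_fst, TrivSqZeroExt.snd_mul,
      map_add, op_smul_eq_smul, op_smul_eq_smul, hM, hM]

lemma tsq_isRational (hσ : IsRational σ) (hρ : IsRational ρ) : IsRational (tsq σ ρ) := by
  rw [isRational_iff] at hσ hρ ⊢
  intro x
  let T₁ : S →ₗ[k] TrivSqZeroExt S M :=
    { toFun := TrivSqZeroExt.inl
      map_add' := TrivSqZeroExt.inl_add M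
      map_smul' := fun c s => TrivSqZeroExt.inl_smul M c s }
  let T₂ : M →ₗ[k] TrivSqZeroExt S M :=
    { toFun := TrivSqZeroExt.inr
      map_add' := TrivSqZeroExt.inr_add S
      map_smul' := fun c m => TrivSqZeroExt.inr_smul S c m }
  exact ((hσ x.fst).linear T₁).add ((hρ x.snd).linear T₂)

lemma tsq_finite [hS : Algebra.FiniteType k S] [hMf : Module.Finite S M] :
    Algebra.FiniteType k (TrivSqZeroExt S M) := by
  classical
  obtain ⟨t, ht⟩ := hS.1
  obtain ⟨u, hu⟩ := hMf.1
  refine ⟨t.image TrivSqZeroExt.inl ∪ u.image TrivSqZeroExt.inr, ?_⟩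
  set B := Algebra.adjoin k
    ((t.image TrivSqZeroExt.inl ∪ u.image TrivSqZeroExt.inr : Finset (TrivSqZeroExt S M)) :
      Set (TrivSqZeroExt S M)) with hB
  have h1 : ∀ s : S, (TrivSqZeroExt.inl s : TrivSqZeroExt S M) ∈ B := by
    intro s
    have h2 : s ∈ Algebra.adjoin k (t : Set S) := by rw [ht]; exact Algebra.mem_top
    induction h2 using Algebra.adjoin_induction with
    | mem x hx =>
      apply Algebra.subset_adjoin
      rw [Finset.coe_union, Finset.coe_image]
      exact Or.inl ⟨x, hx, rfl⟩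
    | algebraMap r => exact B.algebraMap_mem r
    | add x y _ _ hx hy => rw [TrivSqZeroExt.inl_add]; exact B.add_mem hx hy
    | mul x y _ _ hx hy => rw [TrivSqZeroExt.inl_mul]; exact B.mul_mem hx hy
  have h2 : ∀ m : M, (TrivSqZeroExt.inr m : TrivSqZeroExt S M) ∈ B := by
    intro m
    have h3 : m ∈ Submodule.span S (u : Set M) := by rw [hu]; exact Submodule.mem_top
    induction h3 using Submodule.span_induction with
    | mem x hx =>
      apply Algebra.subset_adjoin
      rw [Finset.coe_union, Finset.coe_image, Finset.coe_image]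
      exact Or.inr ⟨x, hx, rfl⟩
    | zero => rw [TrivSqZeroExt.inr_zero]; exact B.zero_mem
    | add x y _ _ hx hy => rw [TrivSqZeroExt.inr_add]; exact B.add_mem hx hy
    | smul a x _ hx =>
      have h4 : (TrivSqZeroExt.inr (a • x) : TrivSqZeroExt S M) =
          TrivSqZeroExt.inl a * TrivSqZeroExt.inr x := (TrivSqZeroExt.inl_mul_inr a x).symm
      rw [h4]
      exact B.mul_mem (h1 a) hx
  rw [eq_top_iff]
  intro x _
  rw [← TrivSqZeroExt.inl_fst_add_inr_snd_eq x]
  exact B.add_mem (h1 _) (h2 _)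

end Tsq

section Main

variable {k S : Type*} {M : Type*} [Field k] [CommRing S] [Algebra k S] [AddCommGroup M]
  [Module k M] [Module S M] [IsScalarTower k S M] [Module Sᵐᵒᵖ M] [IsCentralScalar S M]
  [IsScalarTower k Sᵐᵒᵖ M]

/-- projection to the coefficients in `S` -/
noncomputable def bar (S M : Type*) [CommRing S] [AddCommGroup M] [Module S M] [Module Sᵐᵒᵖ M]
    [IsCentralScalar S M] : Polynomial (TrivSqZeroExt S M) →+* Polynomial (TrivSqZeroExt S M) :=
  Polynomial.mapRingHom ((TrivSqZeroExt.inlHom S M).comp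
    (TrivSqZeroExt.fstHom S S M : TrivSqZeroExt S M →ₐ[S] S).toRingHom)

lemma bar_coeff (P : Polynomial (TrivSqZeroExt S M)) (n : ℕ) :
    (bar S M P).coeff n = TrivSqZeroExt.inl (P.coeff n).fst := by
  simp [bar]

/-- projection to the coefficients in `M` -/
noncomputable def del (P : Polynomial (TrivSqZeroExt S M)) : Polynomial (TrivSqZeroExt S M) :=
  P - bar S M P

lemma del_coeff (P : Polynomial (TrivSqZeroExt S M)) (n : ℕ) :
    (del P).coeff n = TrivSqZeroExt.inr (P.coeff n).snd := by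
  rw [del, Polynomial.coeff_sub, bar_coeff]
  ext <;> simp

lemma del_mul_del (P Q : Polynomial (TrivSqZeroExt S M)) : del P * del Q = 0 := by
  ext1 n
  rw [Polynomial.coeff_mul, Polynomial.coeff_zero]
  apply Finset.sum_eq_zero
  intro x _
  rw [del_coeff, del_coeff, TrivSqZeroExt.inr_mul_inr]

lemma del_add (P Q : Polynomial (TrivSqZeroExt S M)) : del (P + Q) = del P + del Q := by
  simp only [del, map_add]; ring

lemma del_mul (P Q : Polynomial (TrivSqZeroExt S M)) :
    del (P * Q) = bar S M P * del Q + bar S M Q * del P := by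
  have h := del_mul_del P Q
  simp only [del, map_mul] at h ⊢
  linear_combination h

/-- polynomials whose coefficient of degree `n` is a highest weight vector of weight `n` in `S` -/
def Good (σ : Representation k (G k) S) (P : Polynomial (TrivSqZeroExt S M)) : Prop :=
  ∀ n : ℕ, (P.coeff n).snd = 0 ∧ IsU σ (P.coeff n).fst ∧ IsWt σ n (P.coeff n).fst

lemma isU_add {V : Type*} [AddCommGroup V] [Module k V] {ρ : Representation k (G k) V} {v w : V}
    (hv : IsU ρ v) (hw : IsU ρ w) : IsU ρ (v + w) := fun a => by rw [map_add, hv, hw]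

lemma isWt_add {V : Type*} [AddCommGroup V] [Module k V] {ρ : Representation k (G k) V} {v w : V}
    {n : ℤ} (hv : IsWt ρ n v) (hw : IsWt ρ n w) : IsWt ρ n (v + w) := fun a => by
  rw [map_add, hv, hw, smul_add]

lemma isU_zero {V : Type*} [AddCommGroup V] [Module k V] {ρ : Representation k (G k) V} :
    IsU ρ (0 : V) := fun _ => map_zero _

lemma isWt_zero {V : Type*} [AddCommGroup V] [Module k V] {ρ : Representation k (G k) V} {n : ℤ} :
    IsWt ρ n (0 : V) := fun _ => by rw [map_zero, smul_zero]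

lemma good_zero {σ : Representation k (G k) S} : Good (M := M) σ 0 := fun n => by
  rw [Polynomial.coeff_zero, TrivSqZeroExt.snd_zero, TrivSqZeroExt.fst_zero]
  exact ⟨rfl, isU_zero, isWt_zero⟩

lemma good_add {σ : Representation k (G k) S} {P Q : Polynomial (TrivSqZeroExt S M)}
    (hP : Good σ P) (hQ : Good σ Q) : Good σ (P + Q) := fun n => by
  rw [Polynomial.coeff_add, TrivSqZeroExt.snd_add, TrivSqZeroExt.fst_add, (hP n).1, (hQ n).1,
    add_zero]
  exact ⟨rfl, isU_add (hP n).2.1 (hQ n).2.1, isWt_add (hP n).2.2 (hQ n).2.2⟩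

lemma good_mul {σ : Representation k (G k) S} (hmul : IsMul σ)
    {P Q : Polynomial (TrivSqZeroExt S M)} (hP : Good σ P) (hQ : Good σ Q) :
    Good σ (P * Q) := fun n => by
  rw [Polynomial.coeff_mul, TrivSqZeroExt.snd_sum, TrivSqZeroExt.fst_sum]
  refine ⟨?_, ?_, ?_⟩
  · apply Finset.sum_eq_zero
    intro x _
    rw [TrivSqZeroExt.snd_mul, (hP x.1).1, (hQ x.2).1, smul_zero, smul_zero, add_zero]
  · intro a
    rw [map_sum]
    apply Finset.sum_congr rfl
    intro x _
    rw [TrivSqZeroExt.fst_mul, hmul, (hP x.1).2.1 a, (hQ x.2).2.1 a]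
  · intro z
    rw [map_sum, Finset.smul_sum]
    apply Finset.sum_congr rfl
    intro x hx
    rw [Finset.HasAntidiagonal.mem_antidiagonal] at hx
    rw [TrivSqZeroExt.fst_mul, hmul, (hP x.1).2.2 z, (hQ x.2).2.2 z, smul_mul_smul_comm]
    congr 1
    rw [← Units.val_mul, ← zpow_add, ← hx]
    push_cast
    rfl

lemma good_C {σ : Representation k (G k) S} (hmul : IsMul σ) (c : k) :
    Good (M := M) σ (Polynomial.C (algebraMap k (TrivSqZeroExt S M) c)) := fun n => by
  rw [Polynomial.coeff_C]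
  by_cases hn : n = 0
  · subst hn
    rw [if_pos rfl, TrivSqZeroExt.algebraMap_eq_inl', TrivSqZeroExt.snd_inl,
      TrivSqZeroExt.fst_inl]
    refine ⟨rfl, fun _ => tau_alg hmul _ _, fun z => ?_⟩
    rw [tau_alg hmul]
    simp
  · rw [if_neg hn, TrivSqZeroExt.snd_zero, TrivSqZeroExt.fst_zero]
    exact ⟨rfl, isU_zero, isWt_zero⟩

theorem fg_U' [Infinite k] (p : ℕ) [Fact p.Prime] [CharP k p]
    [Algebra.FiniteType k S] [Module.Finite S M]
    (σ : Representation k (G k) S) (ρ : Representation k (G k) M)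
    (hmul : IsMul σ) (hσ : IsRational σ) (hρ : IsRational ρ) (hM : IsEquivModule σ ρ) :
    ∃ (r : ℕ) (m : Fin r → M) (d : Fin r → ℕ), (∀ l, IsU ρ (m l) ∧ IsWt ρ (d l) (m l)) ∧
      ∀ (n : ℕ) (v : M), IsU ρ v → IsWt ρ n v → ∃ c : Fin r → S,
        (∀ l, IsU σ (c l) ∧ IsWt σ (n - d l) (c l)) ∧ v = ∑ l, c l • m l := by
  classical
  have hτ := tsq_isMul σ ρ hmul hM
  have hτr := tsq_isRational σ ρ hσ hρ
  have : Algebra.FiniteType k (TrivSqZeroExt S M) := tsq_finite
  obtain ⟨s, hs1, hs2⟩ := Pool.Agent.Helper92.TR.fg_inv p (pi hτ) (pi_isMul hτ) (pi_isRational hτ hτr)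
  -- coefficients of invariants
  have hco : ∀ F : MvPolynomial (Fin 2) (TrivSqZeroExt S M), (∀ g, pi hτ g F = F) → ∀ n : ℕ,
      (IsU σ ((eps _ F).coeff n).fst ∧ IsWt σ n ((eps _ F).coeff n).fst) ∧
      (IsU ρ ((eps _ F).coeff n).snd ∧ IsWt ρ n ((eps _ F).coeff n).snd) := by
    intro F hF n
    obtain ⟨h1, h2⟩ := inv_coeff hτ hF n
    refine ⟨⟨fun a => ?_, fun z => ?_⟩, ⟨fun a => ?_, fun z => ?_⟩⟩
    · rw [← tsq_fst σ ρ, h1 a]
    · rw [← tsq_fst σ ρ, h2 z, TrivSqZeroExt.fst_smul]
    · rw [← tsq_snd σ ρ, h1 a]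
    · rw [← tsq_snd σ ρ, h2 z, TrivSqZeroExt.snd_smul]
  have hbar : ∀ F : MvPolynomial (Fin 2) (TrivSqZeroExt S M), (∀ g, pi hτ g F = F) →
      Good σ (bar S M (eps _ F)) := by
    intro F hF n
    rw [bar_coeff, TrivSqZeroExt.snd_inl, TrivSqZeroExt.fst_inl]
    exact ⟨rfl, (hco F hF n).1⟩
  have hinv : ∀ F ∈ Algebra.adjoin k (s : Set (MvPolynomial (Fin 2) (TrivSqZeroExt S M))),
      ∀ g, pi hτ g F = F := by
    intro F hF
    induction hF using Algebra.adjoin_induction with
    | mem x hx => exact hs1 x hx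
    | algebraMap r =>
      intro g
      rw [pi_apply, MvPolynomial.algebraMap_apply, piHom_C, tau_alg hτ]
    | add x y _ _ hx hy => intro g; rw [map_add, hx, hy]
    | mul x y _ _ hx hy => intro g; rw [pi_isMul hτ, hx, hy]
  have key : ∀ F ∈ Algebra.adjoin k (s : Set (MvPolynomial (Fin 2) (TrivSqZeroExt S M))),
      ∃ c : MvPolynomial (Fin 2) (TrivSqZeroExt S M) → Polynomial (TrivSqZeroExt S M),
        (∀ f ∈ s, Good σ (c f)) ∧ del (eps _ F) = ∑ f ∈ s, c f * del (eps _ f) := by
    intro F hF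
    induction hF using Algebra.adjoin_induction with
    | mem x hx =>
      refine ⟨fun f => if f = x then 1 else 0, ?_, ?_⟩
      · intro f _
        by_cases h : f = x
        · simp only [if_pos h]
          have := good_C (M := M) hmul (1 : k)
          rwa [map_one, map_one] at this
        · simp only [if_neg h]
          exact good_zero
      · rw [Finset.sum_eq_single x]
        · simp
        · intro f _ hf
          simp only [if_neg hf, zero_mul]
        · intro h
          exact absurd hx h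
    | algebraMap r =>
      refine ⟨fun _ => 0, fun _ _ => good_zero, ?_⟩
      simp only [zero_mul, Finset.sum_const_zero]
      have h1 : eps (TrivSqZeroExt S M) (algebraMap k _ r) =
          Polynomial.C (algebraMap k (TrivSqZeroExt S M) r) := by
        rw [MvPolynomial.algebraMap_apply]
        simp [eps]
      rw [h1]
      ext1 n
      rw [del_coeff, Polynomial.coeff_C, Polynomial.coeff_zero]
      by_cases hn : n = 0
      · rw [if_pos hn, TrivSqZeroExt.algebraMap_eq_inl', TrivSqZeroExt.snd_inl,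
          TrivSqZeroExt.inr_zero]
      · rw [if_neg hn, TrivSqZeroExt.snd_zero, TrivSqZeroExt.inr_zero]
    | add x y hx' hy' hx hy =>
      obtain ⟨c, hc1, hc2⟩ := hx
      obtain ⟨c', hc1', hc2'⟩ := hy
      refine ⟨fun f => c f + c' f, fun f hf => good_add (hc1 f hf) (hc1' f hf), ?_⟩
      rw [map_add, del_add, hc2, hc2', ← Finset.sum_add_distrib]
      apply Finset.sum_congr rfl
      intro f _
      ring
    | mul x y hx' hy' hx hy =>
      obtain ⟨c, hc1, hc2⟩ := hx
      obtain ⟨c', hc1', hc2'⟩ := hy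
      refine ⟨fun f => bar S M (eps _ x) * c' f + bar S M (eps _ y) * c f, fun f hf => ?_, ?_⟩
      · exact good_add (good_mul hmul (hbar x (hinv x hx')) (hc1' f hf))
          (good_mul hmul (hbar y (hinv y hy')) (hc1 f hf))
      · rw [map_mul, del_mul, hc2, hc2', Finset.mul_sum, Finset.mul_sum, ← Finset.sum_add_distrib]
        apply Finset.sum_congr rfl
        intro f _
        ring
  -- the generators
  set N := s.sup (fun f => (eps (TrivSqZeroExt S M) f).natDegree) with hN
  let ι := Prod {x // x ∈ s} (Fin (N + 1))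
  let e := Fintype.equivFin ι
  let m' : ι → M := fun x => ((eps _ x.1.1).coeff x.2).snd
  have hm' : ∀ x : ι, IsU ρ (m' x) ∧ IsWt ρ (x.2 : ℕ) (m' x) := by
    intro x
    exact (hco x.1.1 (hs1 _ x.1.2) x.2).2
  refine ⟨Fintype.card ι, m' ∘ e.symm, fun l => ((e.symm l).2 : ℕ), fun l => hm' _, ?_⟩
  intro n v hU hW
  have hUr : IsU (tsq σ ρ) (TrivSqZeroExt.inr v : TrivSqZeroExt S M) := by
    intro a
    ext
    · rw [tsq_fst, TrivSqZeroExt.fst_inr, map_zero]
    · rw [tsq_snd, TrivSqZeroExt.snd_inr, hU]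
  have hWr : IsWt (tsq σ ρ) n (TrivSqZeroExt.inr v : TrivSqZeroExt S M) := by
    intro z
    ext
    · rw [tsq_fst, TrivSqZeroExt.fst_smul, TrivSqZeroExt.fst_inr, map_zero, smul_zero]
    · rw [tsq_snd, TrivSqZeroExt.snd_smul, TrivSqZeroExt.snd_inr, hW]
  obtain ⟨F, hF1, hF2⟩ := exists_inv hτ hτr hUr hWr
  obtain ⟨c, hc1, hc2⟩ := key F (hs2 F hF1)
  have h1 := congrArg (fun P => (Polynomial.coeff P n).snd) hc2
  simp only [Polynomial.finsetSum_coeff, TrivSqZeroExt.snd_sum] at h1
  rw [del_coeff, hF2, TrivSqZeroExt.snd_inr, Polynomial.coeff_C_mul_X_pow, if_pos rfl,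
    TrivSqZeroExt.snd_inr] at h1
  let c' : ι → S := fun x => if (x.2 : ℕ) ≤ n then ((c x.1.1).coeff (n - x.2)).fst else 0
  refine ⟨c' ∘ e.symm, ?_, ?_⟩
  · intro l
    simp only [Function.comp_apply, c']
    by_cases h : ((e.symm l).2 : ℕ) ≤ n
    · rw [if_pos h]
      have h2 := hc1 (e.symm l).1.1 (e.symm l).1.2 (n - (e.symm l).2)
      refine ⟨h2.2.1, ?_⟩
      have h3 := h2.2.2
      rwa [Nat.cast_sub h] at h3
    · rw [if_neg h]
      exact ⟨isU_zero, isWt_zero⟩
  · have h2 : ∑ l, (c' ∘ e.symm) l • (m' ∘ e.symm) l = ∑ x : ι, c' x • m' x :=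
      Equiv.sum_comp e.symm (fun x => c' x • m' x)
    rw [h2, Fintype.sum_prod_type, h1, ← Finset.sum_coe_sort s]
    apply Finset.sum_congr rfl
    intro f _
    rw [Polynomial.coeff_mul, TrivSqZeroExt.snd_sum]
    have h3 : ∀ x ∈ Finset.HasAntidiagonal.antidiagonal n,
        ((c f.1).coeff x.1 * (del (eps _ f.1)).coeff x.2).snd =
        ((c f.1).coeff x.1).fst • ((eps (TrivSqZeroExt S M) f.1).coeff x.2).snd := by
      intro x _
      rw [del_coeff, TrivSqZeroExt.snd_mul, TrivSqZeroExt.snd_inr, TrivSqZeroExt.fst_inr,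
        MulOpposite.op_zero, zero_smul, add_zero]
    rw [Finset.sum_congr rfl h3, Finset.Nat.sum_antidiagonal_eq_sum_range_succ_mk,
      ← Finset.sum_range_reflect]
    have h4 : ∀ j ∈ Finset.range (n + 1),
        ((c f.1).coeff (n + 1 - 1 - j)).fst •
          ((eps (TrivSqZeroExt S M) f.1).coeff (n - (n + 1 - 1 - j))).snd =
        (if j ≤ n then ((c f.1).coeff (n - j)).fst else 0) •
          ((eps (TrivSqZeroExt S M) f.1).coeff j).snd := by
      intro j hj
      rw [Finset.mem_range] at hj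
      rw [if_pos (by omega)]
      congr 3
      omega
    rw [Finset.sum_congr rfl h4]
    have h5 : ∑ j : Fin (N + 1), c' (f, j) • m' (f, j) = ∑ j ∈ Finset.range (N + 1),
        (if j ≤ n then ((c f.1).coeff (n - j)).fst else 0) •
          ((eps (TrivSqZeroExt S M) f.1).coeff j).snd :=
      Fin.sum_univ_eq_sum_range (fun j => (if j ≤ n then ((c f.1).coeff (n - j)).fst else 0) •
          ((eps (TrivSqZeroExt S M) f.1).coeff j).snd) (N + 1)
    rw [h5]
    rcases le_total n N with h | h
    · apply Finset.sum_subset (Finset.range_subset_range.2 (by omega))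
      intro j _ hj
      rw [Finset.mem_range] at hj
      rw [if_neg (by omega), zero_smul]
    · symm
      apply Finset.sum_subset (Finset.range_subset_range.2 (by omega))
      intro j _ hj
      rw [Finset.mem_range] at hj
      have h6 : (eps (TrivSqZeroExt S M) f.1).natDegree ≤ N :=
        Finset.le_sup (f := fun f => (eps (TrivSqZeroExt S M) f).natDegree) f.2
      have h7 : (eps (TrivSqZeroExt S M) f.1).coeff j = 0 :=
        Polynomial.coeff_eq_zero_of_natDegree_lt (by omega)
      rw [h7, TrivSqZeroExt.snd_zero, smul_zero]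

end Main

/-- `M ^ U` is finitely generated over `S ^ U` -/
theorem fg_U {k S M : Type*} [Field k] [Infinite k] (p : ℕ) [Fact p.Prime] [CharP k p]
    [CommRing S] [Algebra k S] [Algebra.FiniteType k S] [AddCommGroup M] [Module k M] [Module S M]
    [IsScalarTower k S M] [Module.Finite S M]
    (σ : Representation k (G k) S) (ρ : Representation k (G k) M)
    (hmul : IsMul σ) (hσ : IsRational σ) (hρ : IsRational ρ) (hM : IsEquivModule σ ρ) :
    ∃ (r : ℕ) (m : Fin r → M) (d : Fin r → ℕ), (∀ l, IsU ρ (m l) ∧ IsWt ρ (d l) (m l)) ∧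
      ∀ (n : ℕ) (v : M), IsU ρ v → IsWt ρ n v → ∃ c : Fin r → S,
        (∀ l, IsU σ (c l) ∧ IsWt σ (n - d l) (c l)) ∧ v = ∑ l, c l • m l := by
  let _ : Module Sᵐᵒᵖ M := Module.compHom M ((RingHom.id S).fromOpposite mul_comm)
  have _ : IsCentralScalar S M := ⟨fun r m => rfl⟩
  have _ : IsScalarTower k Sᵐᵒᵖ M := ⟨fun a b m => by
    obtain ⟨b, rfl⟩ := MulOpposite.op_surjective b
    change ((a • b : S)) • m = a • (b • m)
    exact smul_assoc a b m⟩
  exact fg_U' p σ ρ hmul hσ hρ hM

end Pool.Agent.Helper18.TR
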