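import Pool.Agent.Helper18.TR.PolyAct

/-!
# Highest weight vectors of `R` are restrictions of invariants of `R[x, y]`
-/

set_option autoImplicit false

namespace Pool.Agent.Helper18.TR

open Pool.Agent.Helper66.TR

variable {k : Type*} [Field k] {R : Type*} [CommRing R] [Algebra k R]
  {τ : Representation k (G k) R}

lemma PolyFun.curve {φ : G k → R} (hφ : PolyFun φ) (γ : k → G k)
    (e : Fin 2 × Fin 2 → Polynomial k) (he : ∀ c p, (γ c).1 p.1 p.2 = (e p).eval c) :
    ∃ Φ : Polynomial R, ∀ c, Φ.eval (algebraMap k R c) = φ (γ c) := by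
  obtain ⟨ι, _, f, w, hw⟩ := hφ
  refine ⟨∑ i, (MvPolynomial.aeval e (f i)).map (algebraMap k R) * Polynomial.C (w i), fun c => ?_⟩
  have h1 : ∀ q : MvPolynomial (Fin 2 × Fin 2) k, (MvPolynomial.aeval e q).eval c = ev (γ c) q := by
    intro q
    have h2 : (Polynomial.evalRingHom c).comp (MvPolynomial.aeval e : _ →ₐ[k] _).toRingHom =
        MvPolynomial.eval (fun p => (γ c).1 p.1 p.2) := by
      apply MvPolynomial.ringHom_ext
      · intro a
        simp
      · intro p
        simp [he]
    exact DFunLike.congr_fun h2 q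
  rw [hw, Polynomial.eval_finsetSum]
  apply Finset.sum_congr rfl
  intro i _
  rw [Polynomial.eval_mul, Polynomial.eval_C, Polynomial.eval_map_algebraMap,
    Polynomial.aeval_algebraMap_apply_eq_algebraMap_eval, h1, Algebra.smul_def]

/-- the Weyl element -/
def wey : G k := ⟨!![0, -1; 1, 0], by simp⟩

lemma lo_eq (c : kˣ) : (lo (c : k) : G k) = up ((c⁻¹ : kˣ) : k) * wey * tor c * up ((c⁻¹ : kˣ) : k) := by
  apply Subtype.ext
  simp only [Matrix.SpecialLinearGroup.coe_mul]
  ext i j
  fin_cases i <;> fin_cases j <;> simp [lo, up, tor, wey]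

lemma inv_eq1 (h : G k) (d : kˣ) (hd : h.1 1 1 = d) :
    h⁻¹ = lo (-(h.1 1 0 * ((d⁻¹ : kˣ) : k))) * tor d * up (-(h.1 0 1 * ((d⁻¹ : kˣ) : k))) := by
  have hdet : h.1 0 0 * h.1 1 1 - h.1 0 1 * h.1 1 0 = 1 := by
    rw [← Matrix.det_fin_two]; exact h.2
  rw [hd] at hdet
  have hdi : (d : k) * ((d⁻¹ : kˣ) : k) = 1 := Units.mul_inv d
  rw [Matrix.SpecialLinearGroup.SL2_inv_expl]
  apply Subtype.ext
  simp only [Matrix.SpecialLinearGroup.coe_mul]
  ext i j
  have hd0 : (d : k) ≠ 0 := d.ne_zero
  fin_cases i <;> fin_cases j <;> simp [lo, up, tor, hd] <;> field_simp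
  linear_combination hdet

lemma inv_eq2 (h : G k) (c : kˣ) (hd : h.1 1 1 = 0) (hc : h.1 1 0 = c) :
    h⁻¹ = wey * tor (-c) * up (-(h.1 0 0 * ((c⁻¹ : kˣ) : k))) := by
  have hdet : h.1 0 0 * h.1 1 1 - h.1 0 1 * h.1 1 0 = 1 := by
    rw [← Matrix.det_fin_two]; exact h.2
  rw [hd, hc] at hdet
  rw [Matrix.SpecialLinearGroup.SL2_inv_expl]
  apply Subtype.ext
  simp only [Matrix.SpecialLinearGroup.coe_mul]
  ext i j
  have hc0 : (c : k) ≠ 0 := c.ne_zero
  fin_cases i <;> fin_cases j <;> simp [up, tor, wey, hd, hc] <;> field_simp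
  linear_combination hdet

theorem exists_inv [Infinite k] (hτ : IsMul τ) (hr : IsRational τ) {n : ℕ} {v : R}
    (hU : IsU τ v) (hW : IsWt τ n v) :
    ∃ F : MvPolynomial (Fin 2) R, (∀ g, pi hτ g F = F) ∧
      eps R F = Polynomial.C v * Polynomial.X ^ n := by
  rcases subsingleton_or_nontrivial R with hR | hR
  · exact ⟨0, fun g => map_zero _, Subsingleton.elim _ _⟩
  have hr' := (isRational_iff τ).1 hr
  obtain ⟨Φ, hΦ⟩ := (hr' v).curve lo
    (fun p => if p = (1, 0) then Polynomial.X else if p.1 = p.2 then 1 else 0) (by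
      intro c p
      obtain ⟨i, j⟩ := p
      fin_cases i <;> fin_cases j <;> simp [lo])
  obtain ⟨Ψ, hΨ⟩ := (hr' (τ wey v)).curve up
    (fun p => if p = (0, 1) then Polynomial.X else if p.1 = p.2 then 1 else 0) (by
      intro c p
      obtain ⟨i, j⟩ := p
      fin_cases i <;> fin_cases j <;> simp [up])
  have hup0 : (up (0 : k) : G k) = 1 := by
    apply Subtype.ext
    ext i j
    fin_cases i <;> fin_cases j <;> simp [up]
  have hlo0 : (lo (0 : k) : G k) = 1 := by
    apply Subtype.ext
    ext i j
    fin_cases i <;> fin_cases j <;> simp [lo]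
  have hW' : ∀ z : kˣ, τ (tor z) v = ((z : k) ^ n) • v := by
    intro z
    rw [hW z, zpow_natCast, Units.val_pow_eq_pow_val]
  have h1 : ∀ c : kˣ, Φ.eval (algebraMap k R c) =
      algebraMap k R c ^ n * Ψ.eval (algebraMap k R ((c⁻¹ : kˣ) : k)) := by
    intro c
    rw [hΦ, hΨ, lo_eq, tau_mul, tau_mul, tau_mul, hU, hW', map_smul, map_smul, Algebra.smul_def,
      map_pow]
  set N := Ψ.natDegree with hN
  have h2 : Polynomial.X ^ N * Φ = Polynomial.X ^ n * Ψ.reverse := by
    rw [← sub_eq_zero]
    apply pts1 (k := k)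
    intro c hc
    have hci : (c : k) * c⁻¹ = 1 := mul_inv_cancel₀ hc
    have : Invertible (algebraMap k R c⁻¹) := ⟨algebraMap k R c, by
      rw [← map_mul, hci, map_one], by rw [← map_mul, mul_comm, hci, map_one]⟩
    have h3 := Polynomial.eval₂_reverse_mul_pow (RingHom.id R) (algebraMap k R c⁻¹) Ψ
    have h4 : ⅟(algebraMap k R c⁻¹) = algebraMap k R c := by
      apply invOf_eq_right_inv
      rw [← map_mul, mul_comm, hci, map_one]
    rw [h4, ← Polynomial.eval, ← Polynomial.eval] at h3
    have h5 := h1 (Units.mk0 c hc)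
    have h6 : (((Units.mk0 c hc)⁻¹ : kˣ) : k) = c⁻¹ := by
      rw [Units.val_inv_eq_inv_val, Units.val_mk0]
    rw [h6, Units.val_mk0, ← h3] at h5
    have h7 : algebraMap k R c ^ N * algebraMap k R c⁻¹ ^ N = 1 := by
      rw [← mul_pow, ← map_mul, hci, map_one, one_pow]
    simp only [Polynomial.eval_sub, Polynomial.eval_mul, Polynomial.eval_pow, Polynomial.eval_X]
    rw [h5]
    linear_combination (algebraMap k R c ^ n * Polynomial.eval (algebraMap k R c) Ψ.reverse) * h7
  have h3 : Φ.natDegree ≤ n := by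
    by_cases h0 : Φ = 0
    · rw [h0]; simp
    · have h4 := congrArg Polynomial.natDegree h2
      rw [(Polynomial.monic_X_pow N).natDegree_mul' h0, Polynomial.natDegree_X_pow] at h4
      have h5 : (Polynomial.X ^ n * Ψ.reverse).natDegree ≤ n + N := by
        refine Polynomial.natDegree_mul_le.trans ?_
        rw [Polynomial.natDegree_X_pow]
        exact Nat.add_le_add_left (Polynomial.reverse_natDegree_le _) _
      omega
  have h4 : Φ.coeff n = τ wey v := by
    have h5 := congrArg (fun P => Polynomial.coeff P (n + N)) h2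
    rw [Polynomial.coeff_X_pow_mul, add_comm, Polynomial.coeff_X_pow_mul,
      Polynomial.coeff_reverse, ← hN, Polynomial.revAt_le le_rfl, Nat.sub_self] at h5
    rw [h5, Polynomial.coeff_zero_eq_eval_zero]
    have h6 := hΨ 0
    rwa [map_zero, hup0, map_one, Module.End.one_apply] at h6
  have h5 : Φ.coeff 0 = v := by
    rw [Polynomial.coeff_zero_eq_eval_zero]
    have h6 := hΦ 0
    rwa [map_zero, hlo0, map_one, Module.End.one_apply] at h6
  -- the invariant
  let F : MvPolynomial (Fin 2) R := ∑ j ∈ Finset.range (n + 1),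
    MvPolynomial.C ((-1) ^ j * Φ.coeff j) * MvPolynomial.X 0 ^ j * MvPolynomial.X 1 ^ (n - j)
  have hF : ∀ v : Fin 2 → k, MvPolynomial.eval (fun i => algebraMap k R (v i)) F =
      ∑ j ∈ Finset.range (n + 1), (-1) ^ j * Φ.coeff j * algebraMap k R (v 0) ^ j *
        algebraMap k R (v 1) ^ (n - j) := by
    intro v
    simp only [F, map_sum, map_mul, map_pow, MvPolynomial.eval_C, MvPolynomial.eval_X, map_neg,
      map_one]
  have key : ∀ h : G k, MvPolynomial.eval (fun i => algebraMap k R (h.1 1 i)) F = τ h⁻¹ v := by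
    intro h
    rw [hF]
    by_cases hd : h.1 1 1 = 0
    · have hdet : h.1 0 0 * h.1 1 1 - h.1 0 1 * h.1 1 0 = 1 := by
        rw [← Matrix.det_fin_two]; exact h.2
      have hc : h.1 1 0 ≠ 0 := by
        intro hc
        rw [hc, hd] at hdet
        simp at hdet
      rw [inv_eq2 h (Units.mk0 _ hc) hd rfl, tau_mul, tau_mul, hU, hW', map_smul, ← h4, hd,
        Finset.sum_eq_single n]
      · rw [Nat.sub_self, pow_zero, mul_one, Algebra.smul_def, Units.val_neg, Units.val_mk0,
          map_pow, map_neg, neg_pow]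
        ring
      · intro j hj hjn
        rw [Finset.mem_range] at hj
        rw [map_zero, zero_pow (by omega), mul_zero]
      · intro hn
        exact absurd (Finset.mem_range.2 (Nat.lt_succ_self n)) hn
    · rw [inv_eq1 h (Units.mk0 _ hd) rfl, tau_mul, tau_mul, hU, hW', map_smul, ← hΦ,
        Algebra.smul_def, Polynomial.eval_eq_sum_range' (Nat.lt_succ_of_le h3), Finset.mul_sum]
      apply Finset.sum_congr rfl
      intro j hj
      rw [Finset.mem_range] at hj
      rw [Units.val_mk0, Units.val_inv_eq_inv_val, Units.val_mk0]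
      set c := h.1 1 0
      set d := h.1 1 1
      have e1 : d ^ n * (-(c * d⁻¹)) ^ j = (-1) ^ j * c ^ j * d ^ (n - j) := by
        have e2 : d ^ n = d ^ (n - j) * d ^ j := by
          rw [← pow_add]; congr 1; omega
        rw [e2, neg_pow (c * d⁻¹), mul_pow, inv_pow]
        field_simp
      have e3 := congrArg (algebraMap k R) e1
      simp only [map_mul, map_pow, map_neg, map_one] at e3
      simp only [map_pow, map_neg, map_mul]
      linear_combination (-Φ.coeff j) * e3
  refine ⟨F, ?_, ?_⟩
  · intro g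
    rw [← sub_eq_zero]
    have h6 : (pi hτ g F - F) * MvPolynomial.X 0 = 0 := by
      apply pts2 (k := k)
      intro v'
      rw [map_mul, MvPolynomial.eval_X]
      by_cases h0 : v' 0 = 0
      · rw [h0, map_zero, mul_zero]
      · let h : G k := ⟨!![0, -(v' 0)⁻¹; v' 0, v' 1], by
          rw [Matrix.det_fin_two_of]; field_simp; ring⟩
        have h7 : ∀ i, h.1 1 i = v' i := by
          intro i
          fin_cases i <;> simp [h]
        have h8 : MvPolynomial.eval (fun i => algebraMap k R (v' i)) (pi hτ g F) =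
            MvPolynomial.eval (fun i => algebraMap k R (v' i)) F := by
          rw [pi_apply, eval_pi]
          have h9 := key (h * g)
          have h10 := key h
          have h11 : (fun i => algebraMap k R ((h * g).1 1 i)) =
              fun j => algebraMap k R (∑ i, v' i * g.1 i j) := by
            funext j
            rw [Matrix.SpecialLinearGroup.coe_mul, Matrix.mul_apply]
            simp only [h7]
          have h12 : (fun i => algebraMap k R (h.1 1 i)) = fun i => algebraMap k R (v' i) := by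
            funext j; rw [h7]
          rw [h11] at h9
          rw [h12] at h10
          rw [h9, h10, ← tau_mul, mul_inv_rev, mul_inv_cancel_left]
        rw [map_sub, h8, sub_self, zero_mul]
    ext m
    have h7 := congrArg (MvPolynomial.coeff (m + Finsupp.single 0 1)) h6
    rwa [MvPolynomial.coeff_mul_X] at h7
  · simp only [F, eps, map_sum, map_mul, map_pow, MvPolynomial.coe_eval₂Hom,
      MvPolynomial.eval₂_C, MvPolynomial.eval₂_X, Matrix.cons_val_zero, Matrix.cons_val_one]
    rw [Finset.sum_eq_single 0]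
    · simp [h5]
    · intro j _ hj
      rw [zero_pow hj]
      simp
    · intro hn
      exact absurd (Finset.mem_range.2 (Nat.succ_pos n)) hn

end Pool.Agent.Helper18.TR
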