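import Pool.Agent.Helper66.TR.Defs

/-!
# The action of `SL₂(k)` on `R[x, y]` for a rational `SL₂(k)`-algebra `R`
-/

set_option autoImplicit false

namespace Pool.Agent.Helper18.TR

open Pool.Agent.Helper66.TR

section PolyFun

variable {k : Type*} [Field k]

/-- evaluation of a polynomial at the entries of a matrix -/
noncomputable abbrev ev (g : G k) (f : MvPolynomial (Fin 2 × Fin 2) k) : k :=
  MvPolynomial.eval (fun p => g.1 p.1 p.2) f

/-- functions on the group which are polynomial in the matrix entries -/
def PolyFun {V : Type*} [AddCommGroup V] [Module k V] (φ : G k → V) : Prop :=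
  ∃ (ι : Type) (_ : Fintype ι) (f : ι → MvPolynomial (Fin 2 × Fin 2) k) (w : ι → V),
    ∀ g, φ g = ∑ i, ev g (f i) • w i

variable {V : Type*} [AddCommGroup V] [Module k V]

lemma isRational_iff (ρ : Representation k (G k) V) :
    IsRational ρ ↔ ∀ v, PolyFun (fun g => ρ g v) := by
  constructor
  · intro h v
    obtain ⟨m, f, w, hw⟩ := h v
    exact ⟨Fin m, inferInstance, f, w, hw⟩
  · intro h v
    obtain ⟨ι, _, f, w, hw⟩ := h v
    let e := Fintype.equivFin ι
    refine ⟨Fintype.card ι, f ∘ e.symm, w ∘ e.symm, fun g => ?_⟩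
    exact (hw g).trans (Equiv.sum_comp e.symm (fun i => ev g (f i) • w i)).symm

lemma PolyFun.add {φ ψ : G k → V} (hφ : PolyFun φ) (hψ : PolyFun ψ) :
    PolyFun (fun g => φ g + ψ g) := by
  obtain ⟨ι, _, f, w, hw⟩ := hφ
  obtain ⟨κ, _, f', w', hw'⟩ := hψ
  refine ⟨ι ⊕ κ, inferInstance, Sum.elim f f', Sum.elim w w', fun g => ?_⟩
  rw [Fintype.sum_sum_type]
  simp only [Sum.elim_inl, Sum.elim_inr]
  rw [← hw, ← hw']

lemma PolyFun.linear {W : Type*} [AddCommGroup W] [Module k W] {φ : G k → V} (hφ : PolyFun φ)
    (T : V →ₗ[k] W) : PolyFun (fun g => T (φ g)) := by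
  obtain ⟨ι, _, f, w, hw⟩ := hφ
  refine ⟨ι, inferInstance, f, fun i => T (w i), fun g => ?_⟩
  simp only
  rw [hw, map_sum]
  simp only [map_smul]

lemma PolyFun.mul {A : Type*} [CommRing A] [Algebra k A] {φ ψ : G k → A} (hφ : PolyFun φ)
    (hψ : PolyFun ψ) : PolyFun (fun g => φ g * ψ g) := by
  obtain ⟨ι, _, f, w, hw⟩ := hφ
  obtain ⟨κ, _, f', w', hw'⟩ := hψ
  refine ⟨ι × κ, inferInstance, fun p => f p.1 * f' p.2, fun p => w p.1 * w' p.2, fun g => ?_⟩
  simp only
  rw [hw, hw', Finset.sum_mul_sum, Fintype.sum_prod_type]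
  simp only [ev, map_mul, smul_mul_smul_comm]

end PolyFun

variable {k : Type*} [Field k] {R : Type*} [CommRing R] [Algebra k R]
  {τ : Representation k (G k) R}

lemma tau_inv_apply {V : Type*} [AddCommGroup V] [Module k V] (ρ : Representation k (G k) V)
    (g : G k) (v : V) : ρ g (ρ g⁻¹ v) = v := by
  rw [← Module.End.mul_apply, ← map_mul, mul_inv_cancel, map_one, Module.End.one_apply]

lemma tau_mul {V : Type*} [AddCommGroup V] [Module k V] (ρ : Representation k (G k) V)
    (g h : G k) (v : V) : ρ (g * h) v = ρ g (ρ h v) := by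
  rw [map_mul, Module.End.mul_apply]

lemma tau_one (hτ : IsMul τ) (g : G k) : τ g 1 = 1 := by
  have h1 := hτ g (τ g⁻¹ 1) 1
  rw [mul_one, tau_inv_apply, one_mul] at h1
  exact h1.symm

lemma tau_alg (hτ : IsMul τ) (g : G k) (c : k) : τ g (algebraMap k R c) = algebraMap k R c := by
  rw [Algebra.algebraMap_eq_smul_one, map_smul, tau_one hτ]

/-- the action by ring homomorphisms -/
def tauHom (hτ : IsMul τ) (g : G k) : R →+* R where
  toFun := τ g
  map_one' := tau_one hτ g
  map_mul' := hτ g
  map_zero' := map_zero _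
  map_add' := map_add _

@[simp] lemma tauHom_apply (hτ : IsMul τ) (g : G k) (a : R) : tauHom hτ g a = τ g a := rfl

open MvPolynomial in
/-- the image of the variables -/
noncomputable def sub (R : Type*) [CommRing R] [Algebra k R] (g : G k) (j : Fin 2) :
    MvPolynomial (Fin 2) R :=
  ∑ i, C (algebraMap k R (g.1 i j)) * X i

/-- the action on polynomials by ring homomorphisms -/
noncomputable def piHom (hτ : IsMul τ) (g : G k) :
    MvPolynomial (Fin 2) R →+* MvPolynomial (Fin 2) R :=
  MvPolynomial.eval₂Hom (MvPolynomial.C.comp (tauHom hτ g)) (sub R g)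

lemma piHom_C (hτ : IsMul τ) (g : G k) (a : R) :
    piHom hτ g (MvPolynomial.C a) = MvPolynomial.C (τ g a) := by
  simp [piHom]

lemma piHom_X (hτ : IsMul τ) (g : G k) (j : Fin 2) :
    piHom hτ g (MvPolynomial.X j) = sub R g j := by
  simp [piHom]

lemma piHom_one (hτ : IsMul τ) : piHom hτ 1 = RingHom.id _ := by
  apply MvPolynomial.ringHom_ext
  · intro a
    rw [piHom_C, map_one, Module.End.one_apply, RingHom.id_apply]
  · intro j
    rw [piHom_X, RingHom.id_apply, sub]
    fin_cases j <;> simp [Fin.sum_univ_two]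

lemma piHom_mul (hτ : IsMul τ) (g h : G k) :
    piHom hτ (g * h) = (piHom hτ g).comp (piHom hτ h) := by
  apply MvPolynomial.ringHom_ext
  · intro a
    rw [RingHom.comp_apply, piHom_C, piHom_C, piHom_C, tau_mul]
  · intro j
    rw [RingHom.comp_apply, piHom_X, piHom_X, sub, sub, map_sum]
    simp only [map_mul, piHom_C, piHom_X, tau_alg hτ]
    simp only [sub, Fin.sum_univ_two, Matrix.SpecialLinearGroup.coe_mul, Matrix.mul_apply, map_add,
      map_mul]
    ring

/-- the action on polynomials -/
noncomputable def pi (hτ : IsMul τ) : Representation k (G k) (MvPolynomial (Fin 2) R) where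
  toFun g :=
    { toFun := piHom hτ g
      map_add' := map_add _
      map_smul' := by
        intro c F
        rw [Algebra.smul_def, map_mul, RingHom.id_apply, Algebra.smul_def,
          MvPolynomial.algebraMap_apply, piHom_C, tau_alg hτ] }
  map_one' := by
    refine LinearMap.ext fun F => ?_
    change piHom hτ 1 F = F
    rw [piHom_one, RingHom.id_apply]
  map_mul' g h := by
    refine LinearMap.ext fun F => ?_
    change piHom hτ (g * h) F = piHom hτ g (piHom hτ h F)
    rw [piHom_mul, RingHom.comp_apply]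

lemma pi_apply (hτ : IsMul τ) (g : G k) (F : MvPolynomial (Fin 2) R) :
    pi hτ g F = piHom hτ g F := rfl

lemma pi_isMul (hτ : IsMul τ) : IsMul (pi hτ) := by
  intro g a b
  simp only [pi_apply, map_mul]

lemma pi_isRational (hτ : IsMul τ) (hr : IsRational τ) : IsRational (pi hτ) := by
  rw [isRational_iff] at hr ⊢
  intro F
  induction F using MvPolynomial.induction_on with
  | C a =>
    simp only [pi_apply, piHom_C]
    let T : R →ₗ[k] MvPolynomial (Fin 2) R :=
      { toFun := MvPolynomial.C
        map_add' := map_add _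
        map_smul' := by
          intro c a
          rw [Algebra.smul_def, map_mul, RingHom.id_apply, Algebra.smul_def,
            MvPolynomial.algebraMap_apply] }
    exact (hr a).linear T
  | add p q hp hq =>
    simp only [pi_apply, map_add] at hp hq ⊢
    exact hp.add hq
  | mul_X p j hp =>
    simp only [pi_apply, map_mul, piHom_X] at hp ⊢
    apply hp.mul
    refine ⟨Fin 2, inferInstance, fun i => MvPolynomial.X (i, j), fun i => MvPolynomial.X i,
      fun g => ?_⟩
    simp only [sub, ev, MvPolynomial.eval_X, Algebra.smul_def, MvPolynomial.algebraMap_apply]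

/-! ### restriction to the line `x = 0` -/

/-- restriction to `x = 0` -/
noncomputable def eps (R : Type*) [CommRing R] : MvPolynomial (Fin 2) R →+* Polynomial R :=
  MvPolynomial.eval₂Hom Polynomial.C ![0, Polynomial.X]

lemma eps_up (hτ : IsMul τ) (a : k) (F : MvPolynomial (Fin 2) R) :
    eps R (piHom hτ (up a) F) = (eps R F).map (tauHom hτ (up a)) := by
  have h : (eps R).comp (piHom hτ (up a)) =
      (Polynomial.mapRingHom (tauHom hτ (up a))).comp (eps R) := by
    apply MvPolynomial.ringHom_ext
    · intro r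
      simp [eps, piHom_C]
    · intro j
      rw [RingHom.comp_apply, RingHom.comp_apply, piHom_X, sub]
      fin_cases j <;> simp [eps, up, Fin.sum_univ_two]
  exact DFunLike.congr_fun h F

lemma eps_tor (hτ : IsMul τ) (z : kˣ) (F : MvPolynomial (Fin 2) R) :
    eps R (piHom hτ (tor z) F) = ((eps R F).map (tauHom hτ (tor z))).comp
      (Polynomial.C (algebraMap k R ((z⁻¹ : kˣ) : k)) * Polynomial.X) := by
  have h : (eps R).comp (piHom hτ (tor z)) =
      ((Polynomial.compRingHom (Polynomial.C (algebraMap k R ((z⁻¹ : kˣ) : k)) *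
        Polynomial.X)).comp (Polynomial.mapRingHom (tauHom hτ (tor z)))).comp (eps R) := by
    apply MvPolynomial.ringHom_ext
    · intro r
      simp [eps, piHom_C]
    · intro j
      rw [RingHom.comp_apply, RingHom.comp_apply, piHom_X, sub]
      fin_cases j <;> simp [eps, tor, Fin.sum_univ_two]
  exact DFunLike.congr_fun h F

/-- the coefficients of the restriction of an invariant are highest weight vectors -/
lemma inv_coeff (hτ : IsMul τ) {F : MvPolynomial (Fin 2) R} (hF : ∀ g, pi hτ g F = F) (n : ℕ) :
    IsU τ ((eps R F).coeff n) ∧ IsWt τ n ((eps R F).coeff n) := by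
  constructor
  · intro a
    have h1 := eps_up hτ a F
    rw [← pi_apply, hF] at h1
    conv_rhs => rw [h1]
    rw [Polynomial.coeff_map, tauHom_apply]
  · intro z
    have h1 := eps_tor hτ z F
    rw [← pi_apply, hF] at h1
    have h2 := congrArg (fun P => Polynomial.coeff P n) h1
    simp only [Polynomial.comp_C_mul_X_coeff, Polynomial.coeff_map, tauHom_apply] at h2
    conv_rhs => rw [h2]
    rw [← map_pow, mul_comm, ← Algebra.smul_def, smul_smul, zpow_natCast, Units.val_pow_eq_pow_val,
      ← mul_pow, Units.mul_inv, one_pow, one_smul]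

/-! ### evaluation at points -/

lemma eval_pi (hτ : IsMul τ) (g : G k) (v : Fin 2 → k) (F : MvPolynomial (Fin 2) R) :
    MvPolynomial.eval (fun i => algebraMap k R (v i)) (piHom hτ g F) =
      τ g (MvPolynomial.eval (fun j => algebraMap k R (∑ i, v i * g.1 i j)) F) := by
  have h : (MvPolynomial.eval (fun i => algebraMap k R (v i))).comp (piHom hτ g) =
      (tauHom hτ g).comp (MvPolynomial.eval (fun j => algebraMap k R (∑ i, v i * g.1 i j))) := by
    apply MvPolynomial.ringHom_ext
    · intro r
      simp [piHom_C]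
    · intro j
      rw [RingHom.comp_apply, RingHom.comp_apply, piHom_X, sub, MvPolynomial.eval_X, tauHom_apply,
        tau_alg hτ]
      simp only [map_sum, map_mul, MvPolynomial.eval_C, MvPolynomial.eval_X]
      apply Finset.sum_congr rfl
      intro i _
      ring
  exact DFunLike.congr_fun h F

lemma pts1 [Infinite k] (p : Polynomial R)
    (h : ∀ c : k, c ≠ 0 → p.eval (algebraMap k R c) = 0) : p = 0 := by
  ext i
  rw [Polynomial.coeff_zero, ← Module.forall_dual_apply_eq_zero_iff k]
  intro l
  set q : Polynomial k := ∑ i ∈ Finset.range (p.natDegree + 1),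
    Polynomial.monomial i (l (p.coeff i)) with hq
  have h1 : ∀ c : k, c ≠ 0 → q.eval c = 0 := by
    intro c hc
    have h2 := congrArg l (h c hc)
    rw [map_zero, Polynomial.eval_eq_sum_range, map_sum] at h2
    rw [hq, Polynomial.eval_finsetSum, ← h2]
    apply Finset.sum_congr rfl
    intro i _
    rw [Polynomial.eval_monomial, ← map_pow, mul_comm (p.coeff i), ← Algebra.smul_def, map_smul,
      smul_eq_mul, mul_comm]
  have h2 : q = 0 := by
    apply Polynomial.eq_zero_of_infinite_isRoot
    apply Set.Infinite.mono (s := {(0 : k)}ᶜ)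
    · intro c hc
      exact h1 c hc
    · exact (Set.finite_singleton (0 : k)).infinite_compl
  have h3 := congrArg (fun q => Polynomial.coeff q i) h2
  simp only [hq, Polynomial.finsetSum_coeff, Polynomial.coeff_monomial, Polynomial.coeff_zero,
    Finset.sum_ite_eq', Finset.mem_range] at h3
  by_cases hi : i < p.natDegree + 1
  · rwa [if_pos hi] at h3
  · rw [Polynomial.coeff_eq_zero_of_natDegree_lt (by omega), map_zero]

lemma pts2 [Infinite k] (Q : MvPolynomial (Fin 2) R)
    (h : ∀ v : Fin 2 → k, MvPolynomial.eval (fun i => algebraMap k R (v i)) Q = 0) : Q = 0 := by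
  classical
  ext m
  rw [MvPolynomial.coeff_zero, ← Module.forall_dual_apply_eq_zero_iff k]
  intro l
  set q : MvPolynomial (Fin 2) k := ∑ d ∈ Q.support,
    MvPolynomial.monomial d (l (Q.coeff d)) with hq
  have h1 : q = 0 := by
    apply MvPolynomial.funext
    intro v
    have h2 := congrArg l (h v)
    rw [map_zero, MvPolynomial.eval_eq, map_sum] at h2
    rw [hq, map_sum, map_zero, ← h2]
    apply Finset.sum_congr rfl
    intro d _
    rw [MvPolynomial.eval_monomial, Finsupp.prod_pow]
    have h3 : ∀ i ∈ d.support, algebraMap k R (v i) ^ d i = algebraMap k R (v i ^ d i) := by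
      intro i _; rw [map_pow]
    rw [Finset.prod_congr rfl h3, ← map_prod, mul_comm (Q.coeff d), ← Algebra.smul_def, map_smul,
      smul_eq_mul, mul_comm]
    congr 1
    apply (Finset.prod_subset (Finset.subset_univ _) _).symm
    intro i _ hi
    rw [Finsupp.notMem_support_iff.1 hi, pow_zero]
  have h3 := congrArg (MvPolynomial.coeff m) h1
  simp only [hq, MvPolynomial.coeff_sum, MvPolynomial.coeff_monomial, MvPolynomial.coeff_zero,
    Finset.sum_ite_eq', MvPolynomial.mem_support_iff] at h3
  by_cases hm : Q.coeff m = 0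
  · rw [hm, map_zero]
  · rwa [if_pos hm] at h3

end Pool.Agent.Helper18.TR
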